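import Pool.Agent.Helper95.HV.Stmts
import Pool.Agent.Helper26.HN.NRB
import Pool.Agent.Helper26.HN.TUP
import Pool.Agent.Helper99.HN.NRC
import Pool.Agent.Helper73.HN.NRL
import Pool.Agent.Helper64.HN.DYZ
import Pool.Agent.Helper4.HN.NEZ
import Pool.Agent.Helper74.HN.INZ
import Pool.Agent.Helper81.HN.ATZ
import Pool.Agent.Helper9.HN.ESB
import Pool.Agent.Helper33.HN.TUZ
import Pool.Agent.Helper8.HN.DRZ

/-!
# Heavy nuclei: part B assembled, and the bridges to part C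
-/

set_option autoImplicit false

namespace Pool.Agent.Helper26.HV

open MeasureTheory Filter Pool.Agent.Helper95 Pool.Agent.Helper95.PW Pool.Agent.Helper95.LN
open Pool.Agent.Helper26.HN

/-- part B of the heavy nuclei theorem -/
theorem partB (CUB : ST_CUB) (INTM : ST_INTM) (HLOC : ST_HLOC) (DEX : ST_DEX) (KK : ST_KK)
    (PHC : ST_PHC) (AED : ST_AED) (QHM : ST_QHM) :
    ST_INZ ∧ HN.ST_NRL ∧ ST_NEZ ∧ ST_ATZ ∧ ST_ESB ∧ ST_TUZ ∧ ST_DRZ ∧ ST_NRB ∧ HN.ST_TUPZ := by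
  have INZ : ST_INZ := Helper74.HN.INZ INTM
  have NRC : ST_NRC := Helper99.HN.NRC CUB INZ
  have NRL : HN.ST_NRL := Helper73.HN.NRL NRC
  have DYZ : ST_DYZ := Helper64.HN.st_DYZ NRL INZ
  have NEZ : ST_NEZ := Helper4.HN.NEZ NRL DYZ INZ HLOC
  have ATZ : ST_ATZ := Helper81.HN.ATZ NEZ INZ
  have ESB : ST_ESB := Helper9.HN.st_ESB DEX KK PHC
  have TUZ : ST_TUZ := Helper33.HN.TUZ ESB AED NEZ INZ QHM INTM
  have DRZ : ST_DRZ := Helper8.HN.DRZ TUZ ATZ QHM INTM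
  exact ⟨INZ, NRL, NEZ, ATZ, ESB, TUZ, DRZ, NRB CUB, HN.TUPZ DRZ⟩

/-- bridge: closed balls -/
theorem brNRL (h : ST_NRB) : Helper95.HV.ST_NRL := by
  obtain ⟨C, hC, H⟩ := h
  exact ⟨C, hC, fun n M X d ρ u _ hS hρ hρd hu ha hq => H n M X d ρ u hS hρ hρd hu ha hq⟩

/-- bridge: upper bounds -/
theorem brTUPZ (h : HN.ST_TUPZ) : Helper95.HV.ST_TUPZ := by
  intro d hd _
  obtain ⟨C, hC, H⟩ := h d hd
  exact ⟨C, hC, fun z E n M X Z u hD hM hE hu ha hq hr =>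
    H n M X Z z E u hD.z1 hM hD.nuc hD.le hD.sep hE hu ha hq hr⟩

end Pool.Agent.Helper26.HV
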